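import Pool.Agent.H624.FN.Core
import Pool.Graph.R_pool_sql_team_seeded_f72693b1.W635.FanReap

/-!
# MP_b8a914_gt : Arhangel'skii's question on the sequential fan and Menger spaces is undecidable

Is there a Hurewicz (nowadays: Menger) space `X` such that the sequential fan `S_ω` embeds in
`C_p(X)`? Yes if `𝔡 ≤ 𝔯`, in particular under the continuum hypothesis. No if `𝔲 < 𝔤`, which holds
in Miller's model. Hence the question cannot be answered in ZFC.
-/

set_option autoImplicit false

universe u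

open Set Filter

noncomputable section

namespace Pool.Agent.Results.MP_b8a914_gt.FanUndecidable

/-- The Menger property (called Hurewicz in the problem). -/
def Menger (X : Type u) [TopologicalSpace X] : Prop :=
  ∀ U : ℕ → Set (Set X), (∀ n, ∀ v ∈ U n, IsOpen v) → (∀ n, ⋃₀ U n = Set.univ) →
    ∃ V : ℕ → Set (Set X), (∀ n, V n ⊆ U n ∧ (V n).Finite) ∧ (⋃ n, ⋃₀ V n) = Set.univ

/-- The countable sequential fan: the quotient of the sum of countably many convergent sequences
identifying the limits. -/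
abbrev SeqFan : Type :=
  Quot (fun p q : ℕ × OnePoint ℕ => p = q ∨ (p.2 = OnePoint.infty ∧ q.2 = OnePoint.infty))

/-- The continuous real functions with the topology of pointwise convergence. -/
abbrev Cp (X : Type u) [TopologicalSpace X] : Type u := {g : X → ℝ // Continuous g}

/-- The countable sequential fan embeds in `C_p(X)`. -/
def FanEmbeds (X : Type u) [TopologicalSpace X] : Prop :=
  ∃ f : SeqFan → Cp X, Topology.IsEmbedding f

/-- The dominating number `𝔡`. -/
def dominatingNumber : Cardinal.{0} :=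
  sInf {κ | ∃ D : Set (ℕ → ℕ), Cardinal.mk D = κ ∧ ∀ g : ℕ → ℕ, ∃ f ∈ D, ∀ᶠ n in atTop, g n ≤ f n}

/-- The reaping number `𝔯`: the least size of a family of infinite sets of natural numbers that is
not split by a single set. -/
def reapingNumber : Cardinal.{0} :=
  sInf {κ | ∃ R : Set (Set ℕ), Cardinal.mk R = κ ∧ (∀ A ∈ R, A.Infinite) ∧
    ∀ S : Set ℕ, ∃ A ∈ R, (A ∩ S).Finite ∨ (A \ S).Finite}

/-- The ultrafilter number `𝔲`: the least size of a base of a nonprincipal ultrafilter on `ℕ`. -/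
def ultrafilterNumber : Cardinal.{0} :=
  sInf {κ | ∃ (𝒰 : Ultrafilter ℕ) (𝓑 : Set (Set ℕ)), (𝒰 : Filter ℕ) ≤ cofinite ∧
    Cardinal.mk 𝓑 = κ ∧ (∀ B ∈ 𝓑, B ∈ 𝒰) ∧ ∀ A ∈ 𝒰, ∃ B ∈ 𝓑, B ⊆ A}

/-- A family of infinite subsets of `ℕ` is groupwise dense if it is closed under infinite almost
subsets and for every partition into finite intervals contains the union of infinitely many
intervals. -/
def GroupwiseDense (D : Set (Set ℕ)) : Prop :=
  (∀ A ∈ D, A.Infinite) ∧
  (∀ A ∈ D, ∀ B : Set ℕ, B.Infinite → (B \ A).Finite → B ∈ D) ∧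
  ∀ c : ℕ → ℕ, StrictMono c → ∃ C : Set ℕ, C.Infinite ∧ (⋃ i ∈ C, Ico (c i) (c (i + 1))) ∈ D

/-- The groupwise density number `𝔤`: the least number of groupwise dense families with empty
intersection. -/
def groupwiseDensityNumber : Cardinal.{0} :=
  sInf {κ | ∃ 𝒟 : Set (Set (Set ℕ)), Cardinal.mk 𝒟 = κ ∧ (∀ D ∈ 𝒟, GroupwiseDense D) ∧ ⋂₀ 𝒟 = ∅}

/-- (1) The continuum hypothesis gives a Tychonoff Menger space `X` such that the sequential fan
embeds in `C_p(X)`. (2) So does `𝔡 ≤ 𝔯`. (3) If `𝔲 < 𝔤` then for every Menger space `X` the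
sequential fan does not embed in `C_p(X)`. -/
theorem result :
    (Cardinal.aleph 1 = Cardinal.continuum.{0} →
      ∃ (X : Type) (_ : TopologicalSpace X), T35Space X ∧ Menger X ∧ FanEmbeds X) ∧
    (dominatingNumber ≤ reapingNumber →
      ∃ (X : Type) (_ : TopologicalSpace X), T35Space X ∧ Menger X ∧ FanEmbeds X) ∧
    (ultrafilterNumber < groupwiseDensityNumber →
      ∀ (X : Type u) [TopologicalSpace X], Menger X → ¬ FanEmbeds X) := by
  refine ⟨fun h => ?_, fun h => ?_, fun h X _ hX hF => ?_⟩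
  · obtain ⟨A, h1, h2⟩ := Pool.Agent.W635.Fan.exists_example h
    exact ⟨A, inferInstance, inferInstance, Pool.Agent.W635.Fan.menger_of_finMenger h1, h2⟩
  · obtain ⟨A, h1, h2⟩ := Pool.Agent.W635.Fan.exists_real_of_le h
    exact ⟨A, inferInstance, inferInstance, h1, h2⟩
  · obtain ⟨Z, h1, ⟨h2, h3⟩, -⟩ := Pool.Agent.W635.Fan.covering_of_fan hX hF
    obtain ⟨g, hg⟩ := H624.FN.not_covering h Z h1 h2
    obtain ⟨F, hF1, hF2⟩ := h3 g
    obtain ⟨n, m, hnm, hz⟩ := hg F hF1
    obtain ⟨z, hz1, hz2⟩ := hF2 n m hnm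
    rw [hz z hz1] at hz2
    exact absurd hz2 (by decide)

end Pool.Agent.Results.MP_b8a914_gt.FanUndecidable
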